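import Pool.Agent.Helper880_AH.Ev
import Pool.Agent.Helper880_EX.Prd
import Pool.Agent.Helper880_AJ.Cnt
import Pool.Agent.Helper880_UN.Tra
import Pool.Agent.Helper880_UN.Scl2

/-!
# Absolute Hodge classes: from one fibre to one hundred per cent of the fibres

Let `X → S` be a smooth projective family over `ℚ` over an open part `S` of the affine line, with **any** connected algebraic monodromy
group, let `X_c` be the fibre over `c ∈ S(ℚ)`, and let `Y` be any smooth projective variety over `ℂ`. The theorem (with Deligne's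
theorems on the monodromy, which are not in the Lean) says:

* **If the absolute Hodge conjecture (Q1, the de Rham part) is true for all products `Y × X_c^k` then it is true for all products
  `Y × X_(c + 1/t)^k`, for one hundred per cent of the integers `t`**: there are at most `K x^(1 - δ)` exceptions `t ≤ x`, `δ > 0`.
  By Deligne's theorem the assumption is true if `Y` and `X_c` are of abelian type, for example if `X_c` is a Fermat
  variety in any dimension and `Y` is a point, an abelian variety or a K3 surface.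
* If `X_c` and `Y` have few periods (for example if `X_c` is a Fermat variety, `Y` is a point, and the monodromy group is not
  small) then this is true for **all** rational points `c + a / t` with `t ≥ (|a| + 2)^E`, without exceptions.

By Deligne's principle B the parallel transport of an absolute Hodge class is an absolute Hodge class. So the statement is known
for the Hodge classes which are invariant under the monodromy, and for the very general fibres, which are not defined over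
number fields. The point is that all Hodge classes of one hundred per cent of the fibres over `c + 1/t` are invariant. This was
known (by `ℓ`-adic methods) only for families of abelian type: the `ℓ`-adic methods start from the fact that Hodge classes are
absolute.

**Setting.** Let `V_x` be (a part of) the cohomology of `X_x` with all Tate twists removed. The period matrix near `x = 0` (we put `c = 0`)
with respect to a de Rham basis over `ℚ(x)` adapted to the Hodge filtration and to a Betti basis is `P(x) = C Z(x)`, where `Z` is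
an `n × n` matrix of G-functions over `ℚ` and `C` is the matrix of the periods of `V_c`. Let `V_0` be the cohomology of `Y`, with
period matrix `C₀` and Hodge operator `φ₀`. For an automorphism `σ` of `ℂ` the conjugate variety `Y_σ` has a period matrix `C₀'`
(with respect to the conjugate de Rham basis) and a Hodge operator `φ₀'`; here these may be any matrices. The varieties `X_x`,
`x ∈ ℚ`, are their own conjugates. A rational tensor `f` in `V_0^(⊗ d₀) ⊗ V_x^(⊗ d)` is a Hodge class of type `(q, q)` if the Hodge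
operator acts on it by `q`. The conjugate of the Hodge class `(2 π i)^q f` under `σ` is the class with the conjugate de Rham
coordinates, and the absolute Hodge conjecture says that it is again `(2 π i)^q f'` with a Hodge class `f'` of `Y_σ` and `X_x`
(`AbsolutelyHodge`). By the Künneth formula (and the polarisations, for duals) these tensors give all Hodge classes on the
products `Y × X_x^k`.

Let `𝔤` be a rational space of infinitesimal symmetries of `Z`, for example the Lie algebra of the differential Galois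
group; then `𝔪 = C 𝔤 C⁻¹` is the Lie algebra of the monodromy group. We assume that the rational tensors which are killed by `𝔤` are
rational sections (`RationalInvariants`): if the monodromy group is connected then such tensors are invariant, the
sections `Z(x)^(-1) g` of the regular connection are single valued, so they are rational functions. By the theorem of the
fixed part (Deligne) the difference `φ_t - φ_c` of the Hodge operators of the fibres is in `𝔪 ⊗ ℂ`.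

**Theorem.** Let `V_c` and `V_t` be as above, `φ_t` and `φ_c` Hodge operators with `φ_t - φ_c ∈ 𝔪`.

1. Let `𝔪` be a perfect rational Lie algebra, and let the entries of `C₀` and `C` be algebraic, up to one common
   factor, over a field generated by `s ≤ r` numbers. There is `E` such that for **all** rational numbers `u = a / t`, `a ≠ 0`,
   `t ≥ (|a| + 2)^E`, such that proper rational subalgebras of `𝔪` normalised by `φ_u` have codimension `c > r` on the part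
   of negative degree: for all automorphisms `σ` of `ℂ` the absolute Hodge conjecture for `σ` and for all spaces
   `V_0^(⊗ d₀) ⊗ V_c^(⊗ d)` implies the absolute Hodge conjecture for `σ` and for all spaces `V_0^(⊗ d₀) ⊗ V_u^(⊗ d)`.
2. For **all** `C₀`, `C` there are `K` and `δ > 0` such that if `𝔪` is a sum of `k` nonabelian Lie algebras which are simple over
   `ℚ` then the same is true for `u = 1 / t` and for all integers `t ≤ x` except for at most `(k + 1) K x^(1 - δ)`.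

Proof (`Pool/Agent/Helper880_AH`, `Helper880_EX`, `Helper880_ZP`, `Helper880_UN`). Outside the exceptional set all Hodge classes `f` on
`V_0` and `V_u` are killed by `𝔪` (`MP_b8862a_ag.FromOneFibre`): the block matrices which multiply all Hodge tensors by scalars
form a rational Lie algebra `𝔥 ∋ φ`, and by our theorem on `MP_d83ecd_ag` the codimension of `𝔥 + Stab F` is at most `r`; this is
proved by derivations of an ultraproduct of counterexamples which move the value `Z(u)` in the directions of `𝔤`. So `f` is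
also a Hodge class on `V_0` and `V_c`, and its de Rham coordinates `w` are killed by `𝔤`. As `𝔤` is rational, `w` is a
combination of rational tensors killed by `𝔤`, with coefficients in `ℂ` (`expand`). The values of the rational sections at
`u` are rational (`ri_eval`), and so conjugation commutes with the parallel transport from `c` to `u` on such tensors
(`conj_inv`). The conjugate `f'` is again killed by `𝔪` and is a Hodge class on the fibre over `u`.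
-/

set_option autoImplicit false

open PowerSeries Filter
open scoped Matrix

namespace Pool.Agent.Results.MP_e2e4f5_ag.FromOneFibreToMost

/-- an integer polynomial as a power series with rational coefficients -/
noncomputable def toQ (P : Polynomial ℤ) : PowerSeries ℚ := ((P.map (Int.castRingHom ℚ) : Polynomial ℚ) : PowerSeries ℚ)

/-- the power series `P(u^e)` -/
noncomputable def atPow (e : ℕ) (P : Polynomial ℤ) : PowerSeries ℂ :=
  ((Polynomial.expand ℂ e (P.map (Int.castRingHom ℂ)) : Polynomial ℂ) : PowerSeries ℂ)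

/-- the matrices `G_s` over `ℤ[x]` with `T^s y^(s) = G_s y` for all solutions `y` of `T y' = A y` -/
noncomputable def iter {r : ℕ} (T : Polynomial ℤ) (A : Fin r → Fin r → Polynomial ℤ) : ℕ → Fin r → Fin r → Polynomial ℤ
  | 0 => fun i j => if i = j then 1 else 0
  | s + 1 => fun i j => T * Polynomial.derivative (iter T A s i j) + ∑ l, iter T A s i l * A l j -
      (s : Polynomial ℤ) * (Polynomial.derivative T * iter T A s i j)

/-- The system `T y' = A y` has a fundamental matrix of solutions of the form `u^(-M) ∑_n Φ_n(u) (log u)^n` with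
`u^e = x` and convergent power series `Φ_n`: the point `0` is regular or a regular singularity with rational
exponents. -/
def QuasiUnipotent {r : ℕ} (T : Polynomial ℤ) (A : Fin r → Fin r → Polynomial ℤ) : Prop :=
  ∃ (e M : ℕ) (K : ℝ) (Φ : Matrix (Fin r) (Fin r) (Polynomial (PowerSeries ℂ))), 1 ≤ e ∧ Φ.det ≠ 0 ∧
    (∀ i j n m, ‖coeff m ((Φ i j).coeff n)‖ ≤ K ^ (m + 1)) ∧
    ∀ i j n, atPow e T * (X * PowerSeries.derivative ℂ ((Φ i j).coeff n) +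
        ((n : PowerSeries ℂ) + 1) * (Φ i j).coeff (n + 1) - (M : PowerSeries ℂ) * (Φ i j).coeff n) =
      (e : PowerSeries ℂ) * X ^ e * ∑ l, atPow e (A i l) * (Φ l j).coeff n

/-- `h_1, ..., h_r` are G-functions with rational coefficients which solve the differential system `T y' = A y`, with
the conditions of Siegel and Galochkin, and `0` is a regular point or a regular singularity with rational exponents of
the system. -/
structure GFamily {r : ℕ} (T : Polynomial ℤ) (A : Fin r → Fin r → Polynomial ℤ) (h : Fin r → PowerSeries ℚ) : Prop where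
  /-- the denominator is not zero -/
  T_ne : T ≠ 0
  /-- the differential equations -/
  ode : ∀ i, toQ T * PowerSeries.derivative ℚ (h i) = ∑ j, toQ (A i j) * h j
  /-- the coefficients have geometric growth -/
  size : ∃ C : ℝ, ∀ i m, |((coeff m (h i) : ℚ) : ℝ)| ≤ C ^ (m + 1)
  /-- the common denominators of the coefficients have geometric growth -/
  den : ∃ C : ℝ, ∀ m : ℕ, ∃ d : ℕ, 0 < d ∧ (d : ℝ) ≤ C ^ (m + 1) ∧ ∀ i, ∀ j ≤ m, ∃ a : ℤ, (d : ℚ) * coeff j (h i) = a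
  /-- Galochkin's condition: the common denominators of the matrices `G_s / s!` have geometric growth -/
  galochkin : ∃ C : ℝ, ∀ m : ℕ, ∃ d : ℕ, 0 < d ∧ (d : ℝ) ≤ C ^ (m + 1) ∧ ∀ s ≤ m, ∀ i j,
    ∃ H : Polynomial ℤ, (d : Polynomial ℤ) * iter T A s i j = (s.factorial : Polynomial ℤ) * H
  /-- the local exponents at `0` are rational and the singularity is regular -/
  regular : QuasiUnipotent T A

section family
variable {n : ℕ}

/-- the entries of a matrix -/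
def entries (Z : Matrix (Fin n) (Fin n) (PowerSeries ℚ)) : Fin (n * n) → PowerSeries ℚ := fun a =>
  Z (finProdFinEquiv.symm a).1 (finProdFinEquiv.symm a).2

/-- rational matrices as complex matrices -/
def toC (M : Matrix (Fin n) (Fin n) ℚ) : Matrix (Fin n) (Fin n) ℂ := M.map fun x : ℚ => (x : ℂ)

/-- the matrix `Z(1 / t)` -/
noncomputable def value (Z : Matrix (Fin n) (Fin n) (PowerSeries ℚ)) (t : ℕ) : Matrix (Fin n) (Fin n) ℂ :=
  Matrix.of fun i j => ((∑' k : ℕ, ((coeff k (Z i j) : ℚ) : ℝ) * (1 / (t : ℝ)) ^ k : ℝ) : ℂ)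

/-- the period matrix `C exp (M log x) Z(x)` at `x = 1 / t` -/
noncomputable def period (C : Matrix (Fin n) (Fin n) ℂ) (M : Matrix (Fin n) (Fin n) ℚ)
    (Z : Matrix (Fin n) (Fin n) (PowerSeries ℚ)) (t : ℕ) : Matrix (Fin n) (Fin n) ℂ :=
  C * (NormedSpace.exp ((-((Real.log (t : ℝ) : ℝ) : ℂ)) • toC M) * value Z t)

/-- the matrix `Z(u)` for a real number `u` -/
noncomputable def valueAt (Z : Matrix (Fin n) (Fin n) (PowerSeries ℚ)) (u : ℝ) : Matrix (Fin n) (Fin n) ℂ :=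
  Matrix.of fun i j => ((∑' k : ℕ, ((coeff k (Z i j) : ℚ) : ℝ) * u ^ k : ℝ) : ℂ)

/-- the matrix `C exp (-L M) Z(u)`; it is the period matrix at `u = x` if `L = -log x` -/
noncomputable def periodAt (C : Matrix (Fin n) (Fin n) ℂ) (M : Matrix (Fin n) (Fin n) ℚ) (L : ℂ)
    (Z : Matrix (Fin n) (Fin n) (PowerSeries ℚ)) (u : ℝ) : Matrix (Fin n) (Fin n) ℂ :=
  C * (NormedSpace.exp ((-L) • toC M) * valueAt Z u)

/-- the matrix of power series with complex coefficients -/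
noncomputable def overC (Z : Matrix (Fin n) (Fin n) (PowerSeries ℚ)) : Matrix (Fin n) (Fin n) (PowerSeries ℂ) :=
  Z.map (PowerSeries.map (algebraMap ℚ ℂ))

/-- `X` is an infinitesimal symmetry of `Z`: for all polynomial relations `R(x, Z(x)) = 0` over `ℂ[x]` the derivative of
`R(x, (1 + ε X) Z(x))` at `ε = 0` is zero. -/
def Symmetry (Z : Matrix (Fin n) (Fin n) (PowerSeries ℚ)) (X : Matrix (Fin n) (Fin n) ℂ) : Prop :=
  ∀ R : MvPolynomial (Fin n × Fin n) (Polynomial ℂ), MvPolynomial.aeval (fun b => overC Z b.1 b.2) R = 0 →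
    ∑ b, MvPolynomial.aeval (fun b => overC Z b.1 b.2) (MvPolynomial.pderiv b R) *
      (X.map (PowerSeries.C (R := ℂ)) * overC Z) b.1 b.2 = 0

/-- up to a common factor the entries of `C₀` and `C` are algebraic over a field generated by `s` numbers -/
def FewPeriods {r : ℕ} (s : ℕ) (C₀ : Matrix (Fin r) (Fin r) ℂ) (C : Matrix (Fin n) (Fin n) ℂ) : Prop :=
  ∃ (b : Fin s → ℂ) (κ : ℂ), κ ≠ 0 ∧ (∀ i j, IsAlgebraic (IntermediateField.adjoin ℚ (Set.range b)) (κ * C₀ i j)) ∧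
    ∀ i j, IsAlgebraic (IntermediateField.adjoin ℚ (Set.range b)) (κ * C i j)

end family

section hodge
variable {B : Type} [Fintype B] [DecidableEq B]

/-- The Hodge filtration `F^p`: it is spanned by the columns `b` of the period matrix with `p ≤ lev b`. -/
def hodge (lev : B → ℤ) (P : Matrix B B ℂ) (p : ℤ) : Submodule ℂ (B → ℂ) :=
  Submodule.span ℂ {v | ∃ b, p ≤ lev b ∧ v = fun i => P i b}

/-- `φ` splits the Hodge filtration: `F^p` is the sum of the eigenspaces of `φ` for the integral eigenvalues `q ≥ p`. -/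
def Splits (lev : B → ℤ) (P φ : Matrix B B ℂ) : Prop :=
  ∀ p, hodge lev P p = Submodule.span ℂ {v | ∃ q : ℤ, p ≤ q ∧ φ *ᵥ v = (q : ℂ) • v}

end hodge

section
variable {n N r₀ : ℕ}

/-- the block matrix `x ⊕ X_1 ⊕ … ⊕ X_N` -/
def total (x : Matrix (Fin r₀) (Fin r₀) ℂ) (X : Fin N → Matrix (Fin n) (Fin n) ℂ) :
    Matrix (Fin r₀ ⊕ (Fin n × Fin N)) (Fin r₀ ⊕ (Fin n × Fin N)) ℂ :=
  Matrix.fromBlocks x 0 0 (Matrix.blockDiagonal X)

/-- `C 𝔤 C⁻¹` -/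
def conjugate (C : Matrix (Fin n) (Fin n) ℂ) (𝔤 : Submodule ℂ (Matrix (Fin n) (Fin n) ℂ)) :
    Submodule ℂ (Matrix (Fin n) (Fin n) ℂ) where
  carrier := {Y | ∃ X ∈ 𝔤, Y = C * X * C⁻¹}
  zero_mem' := ⟨0, 𝔤.zero_mem, by rw [Matrix.mul_zero, Matrix.zero_mul]⟩
  add_mem' := by
    rintro _ _ ⟨X, hX, rfl⟩ ⟨Y, hY, rfl⟩
    exact ⟨X + Y, 𝔤.add_mem hX hY, by rw [Matrix.mul_add, Matrix.add_mul]⟩
  smul_mem' := by
    rintro c _ ⟨X, hX, rfl⟩
    exact ⟨c • X, 𝔤.smul_mem c hX, by rw [Matrix.mul_smul, Matrix.smul_mul]⟩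

end

section lie
variable {B : Type}

/-- the space is spanned by rational matrices -/
def IsRational (W : Submodule ℂ (Matrix B B ℂ)) : Prop :=
  W ≤ Submodule.span ℂ {X | X ∈ W ∧ ∀ a b, ∃ q : ℚ, X a b = q}

variable [Fintype B]

/-- the space is a Lie algebra -/
def IsLie (W : Submodule ℂ (Matrix B B ℂ)) : Prop := ∀ X ∈ W, ∀ Y ∈ W, X * Y - Y * X ∈ W

/-- the Lie algebra is spanned by commutators -/
def IsPerfect (𝔪 : Submodule ℂ (Matrix B B ℂ)) : Prop :=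
  𝔪 ≤ Submodule.span ℂ {W | ∃ X ∈ 𝔪, ∃ Y ∈ 𝔪, W = X * Y - Y * X}

/-- `φ` normalises `𝔪` -/
def Normalises (φ : Matrix B B ℂ) (𝔪 : Submodule ℂ (Matrix B B ℂ)) : Prop := ∀ Y ∈ 𝔪, φ * Y - Y * φ ∈ 𝔪

/-- the space which is spanned by the elements `X` of `𝔪` such that `[φ, X] = a X` with a negative integer `a` -/
def negative (𝔪 : Submodule ℂ (Matrix B B ℂ)) (φ : Matrix B B ℂ) : Submodule ℂ (Matrix B B ℂ) :=
  Submodule.span ℂ {X | X ∈ 𝔪 ∧ ∃ a : ℤ, a < 0 ∧ φ * X - X * φ = (a : ℂ) • X}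

/-- For all rational Lie algebras `𝔫` in `𝔪`, `𝔫 ≠ 𝔪`, which are normalised by `φ` the codimension of `𝔫 ∩ 𝔪^-` in `𝔪^-` is
at least `c`. -/
def Codimension (c : ℕ) (𝔪 : Submodule ℂ (Matrix B B ℂ)) (φ : Matrix B B ℂ) : Prop :=
  ∀ 𝔫 : Submodule ℂ (Matrix B B ℂ), 𝔫 ≤ 𝔪 → IsRational 𝔫 → IsLie 𝔫 → Normalises φ 𝔫 → 𝔫 ≠ 𝔪 →
    Module.finrank ℂ (negative 𝔪 φ ⊓ 𝔫 : Submodule ℂ (Matrix B B ℂ)) + c ≤ Module.finrank ℂ (negative 𝔪 φ)

/-- `𝔪` is a rational Lie algebra which is not abelian and has no rational ideals except `0` and `𝔪`. -/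
structure IsSimpleOverRationals (𝔪 : Submodule ℂ (Matrix B B ℂ)) : Prop where
  /-- it is spanned by rational matrices -/
  rational : IsRational 𝔪
  /-- it is a Lie algebra -/
  lie : IsLie 𝔪
  /-- it is not abelian -/
  nonabelian : ∃ X ∈ 𝔪, ∃ Y ∈ 𝔪, X * Y ≠ Y * X
  /-- there are no rational ideals except `0` and `𝔪` -/
  simple : ∀ 𝔦 : Submodule ℂ (Matrix B B ℂ), 𝔦 ≤ 𝔪 → IsRational 𝔦 → (∀ X ∈ 𝔪, ∀ Y ∈ 𝔦, X * Y - Y * X ∈ 𝔦) → 𝔦 ≠ ⊥ → 𝔦 = 𝔪

end lie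

section tensors
variable {n r₀ : ℕ}

/-- The rational tensor `f` in `V_0^(⊗ d₀) ⊗ V^(⊗ d)` is a Hodge class of type `(q, q)` for the Hodge operators `φ₀` of `V_0` and
`φ` of `V`: the operator on the tensor space acts on `f` by `q`. -/
def IsHodge {d₀ d : ℕ} (q : ℤ) (φ₀ : Matrix (Fin r₀) (Fin r₀) ℂ) (φ : Matrix (Fin n) (Fin n) ℂ)
    (f : (Fin d₀ → Fin r₀) → (Fin d → Fin n) → ℚ) : Prop :=
  ∀ x y, (∑ k, ∑ a, φ₀ (x k) a * (f (Function.update x k a) y : ℂ)) +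
    (∑ l, ∑ a, φ (y l) a * (f x (Function.update y l a) : ℂ)) = q * (f x y : ℂ)

/-- The tensor in `V_0^(⊗ d₀) ⊗ V^(⊗ d)` whose coordinates in the de Rham bases are `w`; the period matrices (the columns are the
elements of the de Rham bases) are `C₀` and `P`. -/
def transform {d₀ d : ℕ} (C₀ : Matrix (Fin r₀) (Fin r₀) ℂ) (P : Matrix (Fin n) (Fin n) ℂ)
    (w : (Fin d₀ → Fin r₀) → (Fin d → Fin n) → ℂ) (x : Fin d₀ → Fin r₀) (y : Fin d → Fin n) : ℂ :=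
  ∑ x' : Fin d₀ → Fin r₀, ∑ y' : Fin d → Fin n, (∏ k, C₀ (x k) (x' k)) * (∏ l, P (y l) (y' l)) * w x' y'

/-- The rational tensor `f'` (period matrices `C₀'` and `P`) is the conjugate under `σ` of the rational tensor `f` (period
matrices `C₀` and `P`), both of type `(q, q)`: the de Rham coordinates of `(2 π i)^q f'` are the images under `σ` of the de Rham
coordinates of `(2 π i)^q f`. -/
def IsConjugate {d₀ d : ℕ} (σ : ℂ ≃+* ℂ) (q : ℤ) (C₀ C₀' : Matrix (Fin r₀) (Fin r₀) ℂ) (P : Matrix (Fin n) (Fin n) ℂ)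
    (f f' : (Fin d₀ → Fin r₀) → (Fin d → Fin n) → ℚ) : Prop :=
  ∃ w, (∀ x y, (f x y : ℂ) = transform C₀ P w x y) ∧ ∀ x y, (f' x y : ℂ) =
    transform C₀' P (fun x' y' => ((2 * Real.pi * Complex.I : ℂ) ^ q)⁻¹ * σ ((2 * Real.pi * Complex.I : ℂ) ^ q * w x' y')) x y

/-- The de Rham part of the absolute Hodge conjecture for `σ` and for all tensor spaces `V_0^(⊗ d₀) ⊗ V^(⊗ d)`: the conjugate under
`σ` of each Hodge class is a rational tensor, and a Hodge class. The Hodge operators and period matrices of `V_0` and of its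
conjugate are `φ₀`, `C₀` and `φ₀'`, `C₀'`; the variety of `V` is defined over `ℚ`, so that it is its own conjugate, and `V` has the
Hodge operator `φ` and the period matrix `P`. -/
def AbsolutelyHodge (σ : ℂ ≃+* ℂ) (C₀ φ₀ C₀' φ₀' : Matrix (Fin r₀) (Fin r₀) ℂ) (P φ : Matrix (Fin n) (Fin n) ℂ) : Prop :=
  ∀ (d₀ d : ℕ) (q : ℤ) (f : (Fin d₀ → Fin r₀) → (Fin d → Fin n) → ℚ), IsHodge q φ₀ φ f →
    ∃ f' : (Fin d₀ → Fin r₀) → (Fin d → Fin n) → ℚ, IsHodge q φ₀' φ f' ∧ IsConjugate σ q C₀ C₀' P f f'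

/-- The absolute Hodge conjecture (de Rham part) for `V_0` and `V_c` (period matrix `C`, Hodge operator `φc`), for any conjugates
of `V_0`, implies the absolute Hodge conjecture for `V_0` and `V_t` (period matrix `P`, Hodge operator `φ`). -/
def Transfers (C₀ φ₀ : Matrix (Fin r₀) (Fin r₀) ℂ) (C φc P φ : Matrix (Fin n) (Fin n) ℂ) : Prop :=
  ∀ (σ : ℂ ≃+* ℂ) (C₀' φ₀' : Matrix (Fin r₀) (Fin r₀) ℂ), AbsolutelyHodge σ C₀ φ₀ C₀' φ₀' C φc →
    AbsolutelyHodge σ C₀ φ₀ C₀' φ₀' P φ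

/-- The monodromy invariant tensors are rational sections: for all rational tensors `g` in `V^(⊗ d)` which are killed by `𝔤`
there are a polynomial `q ≠ 0` and polynomials `R` over `ℚ` with `q(x) g = Z(x)^(⊗ d) R(x)`. -/
def RationalInvariants (Z : Matrix (Fin n) (Fin n) (PowerSeries ℚ)) (𝔤 : Submodule ℂ (Matrix (Fin n) (Fin n) ℂ)) : Prop :=
  ∀ (d : ℕ) (g : (Fin d → Fin n) → ℚ),
    (∀ X ∈ 𝔤, ∀ v, ∑ l, ∑ a, X (v l) a * (g (Function.update v l a) : ℂ) = 0) →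
    ∃ (q : Polynomial ℚ) (R : (Fin d → Fin n) → Polynomial ℚ), q ≠ 0 ∧
      ∀ v, (q : PowerSeries ℚ) * PowerSeries.C (g v) = ∑ v' : Fin d → Fin n, (∏ l, Z (v l) (v' l)) * (R v' : PowerSeries ℚ)

/-- The integer `t` is exceptional: there is a Hodge operator `φ` on `V_t` (it splits the Hodge filtration, and its complex
conjugate is `w - φ`) which normalises each `𝔦_l`, does not commute with `𝔦_l` and is in `φc + ∑ 𝔦_l`, such that the absolute
Hodge conjecture does not transfer from `V_c` to `V_t`. -/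
def Exceptional {k : ℕ} (C₀ φ₀ : Matrix (Fin r₀) (Fin r₀) ℂ) (C φc : Matrix (Fin n) (Fin n) ℂ)
    (Z : Matrix (Fin n) (Fin n) (PowerSeries ℚ)) (lev : Fin n → ℤ) (𝔦 : Fin k → Submodule ℂ (Matrix (Fin n) (Fin n) ℂ))
    (t : ℕ) : Prop :=
  IsUnit (C * valueAt Z (1 / (t : ℝ))) ∧ ∃ φ, Splits lev (C * valueAt Z (1 / (t : ℝ))) φ ∧
    (∃ w : ℤ, φ.map star = (w : ℂ) • (1 : Matrix (Fin n) (Fin n) ℂ) - φ) ∧ (∀ l, Normalises φ (𝔦 l)) ∧
    (∀ l, ∃ X ∈ 𝔦 l, φ * X ≠ X * φ) ∧ φ - φc ∈ (⨆ l, 𝔦 l) ∧ ¬ Transfers C₀ φ₀ C φc (C * valueAt Z (1 / (t : ℝ))) φ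

end tensors

section internal
variable {n N r₀ : ℕ}

/-- The tensor `f` in `V_0^(⊗ d₀) ⊗ V_(τ 1) ⊗ … ⊗ V_(τ d)` is a Hodge class for the operators `φ₀`, `φ_1, …, φ_N`: it is an
eigenvector, with an integral eigenvalue `q`. -/
def IsHodgeN {d₀ d : ℕ} (φ₀ : Matrix (Fin r₀) (Fin r₀) ℂ) (φ : Fin N → Matrix (Fin n) (Fin n) ℂ) (τ : Fin d → Fin N)
    (f : (Fin d₀ → Fin r₀) → (Fin d → Fin n) → ℚ) : Prop :=
  ∃ q : ℤ, ∀ x y, (∑ k, ∑ a, φ₀ (x k) a * (f (Function.update x k a) y : ℂ)) +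
    (∑ l, ∑ a, φ (τ l) (y l) a * (f x (Function.update y l a) : ℂ)) = q * (f x y : ℂ)

/-- The tensor `f` in `V_0^(⊗ d₀) ⊗ V_(τ 1) ⊗ … ⊗ V_(τ d)` is killed by `0 ⊕ 𝔪^N`: for all `j` and all `X ∈ 𝔪` the sum of the
actions of `X` on the factors `V_(τ l)` with `τ l = j` is zero. -/
def Invariant {d₀ d : ℕ} (𝔪 : Submodule ℂ (Matrix (Fin n) (Fin n) ℂ)) (τ : Fin d → Fin N)
    (f : (Fin d₀ → Fin r₀) → (Fin d → Fin n) → ℚ) : Prop :=
  ∀ j, ∀ X ∈ 𝔪, ∀ x y, ∑ l, (if τ l = j then ∑ a, X (y l) a * (f x (Function.update y l a) : ℂ) else 0) = 0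

/-- For all `c`, all rational perfect Lie algebras `𝔪` in `𝔤'`, all operators `φ₀`, `φ_j` which split the Hodge
filtrations with the period matrices `C₀`, `P_j`, and all `φc` which normalise `𝔪`, with `φ_j - φc ∈ 𝔪` and `Codimension c`, there
is a set `S` of at most `r / c` indices such that for all tensors `f` in spaces `V_0^(⊗ d₀) ⊗ V_(τ 1) ⊗ … ⊗ V_(τ d)` with
`τ l ∉ S`: `f` is a Hodge class for `φ₀`, `φ_j` if and only if it is a Hodge class for `φ₀`, `φc` and invariant. -/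
def FewExceptions (r : ℕ) (𝔤' : Submodule ℂ (Matrix (Fin n) (Fin n) ℂ)) (lev₀ : Fin r₀ → ℤ) (lev : Fin n → ℤ)
    (C₀ : Matrix (Fin r₀) (Fin r₀) ℂ) (P : Fin N → Matrix (Fin n) (Fin n) ℂ) : Prop :=
  ∀ (c : ℕ) (𝔪 : Submodule ℂ (Matrix (Fin n) (Fin n) ℂ)) (φ₀ : Matrix (Fin r₀) (Fin r₀) ℂ) (φc : Matrix (Fin n) (Fin n) ℂ)
    (φ : Fin N → Matrix (Fin n) (Fin n) ℂ), 𝔪 ≤ 𝔤' → IsRational 𝔪 → IsLie 𝔪 → IsPerfect 𝔪 → Normalises φc 𝔪 →
    Splits lev₀ C₀ φ₀ → (∀ j, Splits lev (P j) (φ j)) → (∀ j, φ j - φc ∈ 𝔪) → (∀ j, Codimension c 𝔪 (φ j)) →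
    ∃ S : Finset (Fin N), S.card * c ≤ r ∧
      ∀ (d₀ d : ℕ) (τ : Fin d → Fin N) (f : (Fin d₀ → Fin r₀) → (Fin d → Fin n) → ℚ), (∀ l, τ l ∉ S) →
        (IsHodgeN φ₀ φ τ f ↔ IsHodgeN φ₀ (fun _ : Fin N => φc) τ f ∧ Invariant 𝔪 τ f)

end internal

/-- the numbers `t_j` are distinct and congruent modulo `G`, and `(t_i - t_j + 2)^E ≤ t_j` -/
def InWindow (G E : ℕ) {N : ℕ} (t : Fin N → ℕ) : Prop :=
  Function.Injective t ∧ (∀ i j, t i ≡ t j [MOD G]) ∧ ∀ i j, (t i - t j + 2) ^ E ≤ t j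

/-- For all `c`, all rational perfect Lie algebras `𝔪` in `𝔤'`, all operators `φ₀`, `φ_j` which split the Hodge
filtrations with the period matrices `C₀`, `P_j` such that `φ_j` normalises `𝔪`, and `Codimension c`, and for all rational Lie
algebras `𝔥` which contain `φ₀ ⊕ φ_1 ⊕ … ⊕ φ_N` there is a set `S` of at most `r / c` indices such that for `j ∉ S` every
element of `𝔪` in the block `j` can be lifted to an element of `𝔥` which is zero on `V_0` and on the other blocks `i ∉ S`. -/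
def LieFew {n N r₀ : ℕ} (r : ℕ) (𝔤' : Submodule ℂ (Matrix (Fin n) (Fin n) ℂ)) (lev₀ : Fin r₀ → ℤ) (lev : Fin n → ℤ)
    (C₀ : Matrix (Fin r₀) (Fin r₀) ℂ) (P : Fin N → Matrix (Fin n) (Fin n) ℂ) : Prop :=
  ∀ (c : ℕ) (𝔪 : Submodule ℂ (Matrix (Fin n) (Fin n) ℂ)) (φ₀ : Matrix (Fin r₀) (Fin r₀) ℂ)
    (φ : Fin N → Matrix (Fin n) (Fin n) ℂ), 𝔪 ≤ 𝔤' → IsRational 𝔪 → IsLie 𝔪 → IsPerfect 𝔪 →
    Splits lev₀ C₀ φ₀ → (∀ j, Splits lev (P j) (φ j)) → (∀ j, Normalises (φ j) 𝔪) → (∀ j, Codimension c 𝔪 (φ j)) →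
    ∀ 𝔥 : Submodule ℂ (Matrix (Fin r₀ ⊕ (Fin n × Fin N)) (Fin r₀ ⊕ (Fin n × Fin N)) ℂ), IsRational 𝔥 → IsLie 𝔥 →
      total φ₀ φ ∈ 𝔥 → ∃ S : Finset (Fin N), S.card * c ≤ r ∧ ∀ j ∉ S, ∀ X ∈ 𝔪,
        ∃ Y : Fin N → Matrix (Fin n) (Fin n) ℂ, (∀ i, Y i ∈ 𝔪) ∧ total 0 Y ∈ 𝔥 ∧ Y j = X ∧ ∀ i ∉ S, i ≠ j → Y i = 0

/-- The integer `t` is in the Hodge locus, relative to `V_0` and `𝔪 = ∑ 𝔦_l`: there are a Hodge operator `φ` on `V_t` (it splits
the Hodge filtration, and its complex conjugate is `w - φ`), which normalises each `𝔦_l` and does not commute with `𝔦_l`, and a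
rational Lie algebra `𝔥` which contains `φ₀ ⊕ φ` but not `0 ⊕ 𝔪`. -/
def InLocus {n r₀ k : ℕ} (C : Matrix (Fin n) (Fin n) ℂ) (M : Matrix (Fin n) (Fin n) ℚ)
    (Z : Matrix (Fin n) (Fin n) (PowerSeries ℚ)) (lev : Fin n → ℤ) (φ₀ : Matrix (Fin r₀) (Fin r₀) ℂ)
    (𝔦 : Fin k → Submodule ℂ (Matrix (Fin n) (Fin n) ℂ)) (t : ℕ) : Prop :=
  IsUnit (period C M Z t) ∧ ∃ φ, Splits lev (period C M Z t) φ ∧
    (∃ w : ℤ, φ.map star = (w : ℂ) • (1 : Matrix (Fin n) (Fin n) ℂ) - φ) ∧ (∀ l, Normalises φ (𝔦 l)) ∧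
    (∀ l, ∃ X ∈ 𝔦 l, φ * X ≠ X * φ) ∧
    ∃ 𝔥 : Submodule ℂ (Matrix (Fin r₀ ⊕ (Fin n × Fin 1)) (Fin r₀ ⊕ (Fin n × Fin 1)) ℂ), IsRational 𝔥 ∧ IsLie 𝔥 ∧
      total φ₀ (fun _ => φ) ∈ 𝔥 ∧ ∃ X ∈ ⨆ l, 𝔦 l, total 0 (fun _ => X) ∉ 𝔥

theorem iter_eq {r : ℕ} (T : Polynomial ℤ) (A : Fin r → Fin r → Polynomial ℤ) (s : ℕ) :
    iter T A s = Pool.Agent.Y120.GH.itm T A s := by
  induction s with
  | zero => rfl
  | succ s ih =>
    funext i j
    rw [iter, Pool.Agent.Y120.GH.itm, ih]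

theorem qu_eq {r : ℕ} {T : Polynomial ℤ} {A : Fin r → Fin r → Polynomial ℤ} (h : QuasiUnipotent T A) :
    Pool.Agent.Y120.GH.QU0 T A := by
  obtain ⟨e, M, K, Φ, he, hdet, hc, heq⟩ := h
  have he0 : e ≠ 0 := by omega
  refine ⟨e, he0, M, K, Φ, hc, fun i j n => ?_, hdet⟩
  have h1 := heq i j n
  simp only [atPow] at h1
  rw [Pool.Agent.Y120.GH.expand_poly he0]
  simp only [Pool.Agent.Y120.GH.expand_poly he0]
  exact h1

theorem gal_eq {r : ℕ} {T : Polynomial ℤ} {A : Fin r → Fin r → Polynomial ℤ} {h : Fin r → PowerSeries ℚ}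
    (hG : GFamily T A h) : ∃ C : ℝ, ∀ m, ∃ d : ℕ, 0 < d ∧ (d : ℝ) ≤ C ^ (m + 1) ∧ ∀ s ≤ m, ∀ i j, ∃ H : Polynomial ℤ,
      (d : Polynomial ℤ) * Pool.Agent.Y120.GH.itm T A s i j = (s.factorial : Polynomial ℤ) * H := by
  obtain ⟨C, hC⟩ := hG.galochkin
  refine ⟨C, fun m => ?_⟩
  obtain ⟨d, h1, h2, h3⟩ := hC m
  refine ⟨d, h1, h2, fun s hs i' j' => ?_⟩
  rw [← iter_eq]
  exact h3 s hs i' j'

theorem map_eq {n : ℕ} (M : Matrix (Fin n) (Fin n) ℚ) : toC M = Pool.Agent.Y119.HY.cm M := by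
  ext i j
  rw [Pool.Agent.Y119.HY.cm_apply]
  rfl

theorem sym_inf {n : ℕ} {Z : Matrix (Fin n) (Fin n) (PowerSeries ℚ)} {X : Matrix (Fin n) (Fin n) ℂ} (h : Symmetry Z X) :
    Pool.Agent.Helper880_R3.Inf Z X := by
  intro R hR
  refine Eq.trans ?_ (h R hR)
  unfold Pool.Agent.Helper880_R3.DX
  rw [map_sum]
  refine Finset.sum_congr rfl fun b _ => ?_
  rw [map_mul, map_sum, Matrix.mul_apply]
  refine congrArg₂ (· * ·) rfl (Finset.sum_congr rfl fun l _ => ?_)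
  rw [map_mul, MvPolynomial.aeval_C, MvPolynomial.aeval_X, Matrix.map_apply, Matrix.map_apply]
  have h1 : algebraMap (Polynomial ℂ) (PowerSeries ℂ) (Polynomial.C (X b.1 l)) = PowerSeries.C (X b.1 l) :=
    Polynomial.coe_C _
  rw [h1]
  rfl

theorem alg_mem {ι : Type} (b : ι → ℂ) (k : ι) : IsAlgebraic (IntermediateField.adjoin ℚ (Set.range b)) (b k) := by
  have h1 : b k ∈ IntermediateField.adjoin ℚ (Set.range b) := IntermediateField.subset_adjoin ℚ _ ⟨k, rfl⟩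
  exact isAlgebraic_algebraMap (⟨b k, h1⟩ : IntermediateField.adjoin ℚ (Set.range b))

theorem all_few {r n : ℕ} (C₀ : Matrix (Fin r) (Fin r) ℂ) (C : Matrix (Fin n) (Fin n) ℂ) : ∃ s, FewPeriods s C₀ C := by
  set e := Fintype.equivFin ((Fin r × Fin r) ⊕ (Fin n × Fin n)) with he
  refine ⟨Fintype.card ((Fin r × Fin r) ⊕ (Fin n × Fin n)), fun k => Sum.elim (fun p => C₀ p.1 p.2) (fun p => C p.1 p.2)
    (e.symm k), 1, one_ne_zero, fun i j => ?_, fun i j => ?_⟩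
  · have h1 := alg_mem (fun k => Sum.elim (fun p => C₀ p.1 p.2) (fun p => C p.1 p.2) (e.symm k)) (e (Sum.inl (i, j)))
    rw [one_mul]
    simpa using h1
  · have h1 := alg_mem (fun k => Sum.elim (fun p => C₀ p.1 p.2) (fun p => C p.1 p.2) (e.symm k)) (e (Sum.inr (i, j)))
    rw [one_mul]
    simpa using h1

theorem total_unit {r n N : ℕ} {C₀ : Matrix (Fin r) (Fin r) ℂ} {P : Fin N → Matrix (Fin n) (Fin n) ℂ} (h₀ : IsUnit C₀)
    (h : ∀ j, IsUnit (P j)) : IsUnit (total C₀ P) := by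
  unfold total
  rw [Matrix.isUnit_fromBlocks_zero₁₂, Matrix.isUnit_iff_isUnit_det (Matrix.blockDiagonal P), Matrix.det_blockDiagonal]
  refine ⟨h₀, ?_⟩
  rw [isUnit_iff_ne_zero, Finset.prod_ne_zero_iff]
  intro j _
  exact ((Matrix.isUnit_iff_isUnit_det _).1 (h j)).ne_zero

theorem rat_eq {B : Type} {W : Submodule ℂ (Matrix B B ℂ)} :
    IsRational W ↔ Pool.Agent.Helper880_ZP.DefOver Pool.Agent.Helper880_ZP.K₀ W := by
  have h : {X | X ∈ W ∧ ∀ a b, ∃ q : ℚ, X a b = q} = {X | X ∈ W ∧ ∀ a b, X a b ∈ Pool.Agent.Helper880_ZP.K₀} := by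
    ext X
    simp only [Pool.Agent.Helper880_ZP.mem_K₀]
  unfold IsRational Pool.Agent.Helper880_ZP.DefOver
  rw [h]
  exact ⟨fun h1 => le_antisymm h1 (Submodule.span_le.2 fun X hX => hX.1), fun h1 => h1.le⟩

theorem hodge_eq {n N r₀ d₀ d : ℕ} {φ₀ : Matrix (Fin r₀) (Fin r₀) ℂ} {φ : Fin N → Matrix (Fin n) (Fin n) ℂ} {τ : Fin d → Fin N}
    {f : (Fin d₀ → Fin r₀) → (Fin d → Fin n) → ℚ} : IsHodgeN φ₀ φ τ f ↔
      ∃ q : ℤ, Pool.Agent.Helper880_HC.act τ φ₀ φ (Pool.Agent.Helper880_HC.tC f) = (q : ℂ) • Pool.Agent.Helper880_HC.tC f := by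
  constructor
  · rintro ⟨q, hq⟩
    refine ⟨q, ?_⟩
    funext x y
    rw [Pool.Agent.Helper880_HC.act_apply]
    exact hq x y
  · rintro ⟨q, hq⟩
    refine ⟨q, fun x y => ?_⟩
    have h1 := congrFun (congrFun hq x) y
    rw [Pool.Agent.Helper880_HC.act_apply] at h1
    exact h1

theorem inv_eq {n N r₀ d₀ d : ℕ} {𝔪 : Submodule ℂ (Matrix (Fin n) (Fin n) ℂ)} {τ : Fin d → Fin N}
    {f : (Fin d₀ → Fin r₀) → (Fin d → Fin n) → ℚ} : Invariant 𝔪 τ f ↔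
      ∀ j, ∀ X ∈ 𝔪, Pool.Agent.Helper880_HC.one τ (Pool.Agent.Helper880_HC.tC f) j X = 0 := by
  constructor
  · intro h j X hX
    funext x y
    rw [Pool.Agent.Helper880_HC.one_sum]
    exact h j X hX x y
  · intro h j X hX x y
    have h1 := congrFun (congrFun (h j X hX) x) y
    rw [Pool.Agent.Helper880_HC.one_sum] at h1
    exact h1

theorem norm_of {n : ℕ} {𝔪 : Submodule ℂ (Matrix (Fin n) (Fin n) ℂ)} {φ φc : Matrix (Fin n) (Fin n) ℂ} (hL : IsLie 𝔪)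
    (h : Normalises φc 𝔪) (hd : φ - φc ∈ 𝔪) : Normalises φ 𝔪 := by
  intro Y hY
  have h1 : φ * Y - Y * φ = ((φ - φc) * Y - Y * (φ - φc)) + (φc * Y - Y * φc) := by noncomm_ring
  rw [h1]
  exact 𝔪.add_mem (hL _ hd _ hY) (h Y hY)

theorem concl {n N r₀ r : ℕ} {𝔤 : Submodule ℂ (Matrix (Fin n) (Fin n) ℂ)} {lev₀ : Fin r₀ → ℤ} {lev : Fin n → ℤ}
    {C₀ : Matrix (Fin r₀) (Fin r₀) ℂ} {C : Matrix (Fin n) (Fin n) ℂ} {P : Fin N → Matrix (Fin n) (Fin n) ℂ}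
    (hu : IsUnit (total C₀ P))
    (h : ∀ 𝔥 : Submodule ℂ (Matrix (Fin r₀ ⊕ (Fin n × Fin N)) (Fin r₀ ⊕ (Fin n × Fin N)) ℂ),
      Pool.Agent.Helper880_ZP.DefOver Pool.Agent.Helper880_ZP.K₀ 𝔥 → Pool.Agent.Helper880_ZP.Lie' 𝔥 →
      (∃ φ ∈ 𝔥, ∃ V ∈ Pool.Agent.Helper880_ZP.upS ℂ (Pool.Agent.Helper880_ZP.Lv N lev₀ lev),
        φ * (total C₀ P * (1 + V)) = total C₀ P * (1 + V) * Pool.Agent.Helper880_ZP.Dg ℂ (Pool.Agent.Helper880_ZP.Lv N lev₀ lev)) →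
      Module.finrank ℂ (Pool.Agent.Helper880_ZP.blS r₀ N (Pool.Agent.Helper880_ZP.cgS C 𝔤)) ≤
        Module.finrank ℂ (Pool.Agent.Helper880_ZP.blS r₀ N (Pool.Agent.Helper880_ZP.cgS C 𝔤) ⊓
          (𝔥 ⊔ Pool.Agent.Helper880_ZP.cjS (total C₀ P)
            (Pool.Agent.Helper880_ZP.ppS ℂ (Pool.Agent.Helper880_ZP.Lv N lev₀ lev))) : Submodule ℂ _) + r) :
    FewExceptions r (conjugate C 𝔤) lev₀ lev C₀ P := by
  intro c 𝔪 φ₀ φc φ hm hmr hml hmp hnc h0 hsp hdiff hcod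
  have hst : ∀ j, Normalises (φ j) 𝔪 := fun j => norm_of hml hnc (hdiff j)
  obtain ⟨⟨V, hV, hVe⟩, hblk⟩ := Pool.Agent.Helper880_ZP.blk hu h0 hsp
  have hud := (Matrix.isUnit_iff_isUnit_det _).1 hu
  obtain ⟨hEig, hcj⟩ := Pool.Agent.Helper880_ZP.Eig.mk' hud hV hVe
  have hc1 := h (Pool.Agent.Helper880_EX.mtB φ₀ φ) Pool.Agent.Helper880_EX.mtB_rat Pool.Agent.Helper880_EX.mtB_lie
    ⟨_, Pool.Agent.Helper880_EX.mtB_phi, V, hV, hVe⟩
  have hc2 : Module.finrank ℂ (Pool.Agent.Helper880_ZP.blS r₀ N (Pool.Agent.Helper880_ZP.cgS C 𝔤)) ≤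
      Module.finrank ℂ (Pool.Agent.Helper880_ZP.blS r₀ N (Pool.Agent.Helper880_ZP.cgS C 𝔤) ⊓
        (Pool.Agent.Helper880_EX.mtB φ₀ φ ⊔ Pool.Agent.Helper880_ZP.cjS (total C₀ P * (1 + V))
          (Pool.Agent.Helper880_ZP.ppS ℂ (Pool.Agent.Helper880_ZP.Lv N lev₀ lev))) : Submodule ℂ _) + r := by
    rw [hcj]
    exact hc1
  have hmem : ∀ j, ∀ X ∈ 𝔪, Pool.Agent.Helper880_R3.ib j X ∈
      Pool.Agent.Helper880_ZP.blS r₀ N (Pool.Agent.Helper880_ZP.cgS C 𝔤) := fun j X hX =>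
    Pool.Agent.Helper880_ZP.ib_blS (hm hX)
  obtain ⟨S, h1, h2⟩ := Pool.Agent.Helper880_EX.LH_main (c := c) hEig Pool.Agent.Helper880_EX.mtB_lie hml
    Pool.Agent.Helper880_EX.mtB_rat (rat_eq.1 hmr) hmp Pool.Agent.Helper880_EX.mtB_phi hst
    (fun j 𝔫 k1 k2 k3 k4 k5 => hcod j 𝔫 k1 (rat_eq.2 k2) k3 k4 k5) hmem hc2
  refine ⟨S, h1, fun d₀ d τ f hτ => ?_⟩
  rw [hodge_eq, hodge_eq, inv_eq]
  exact Pool.Agent.Helper880_EX.hodge_iff hmp h2 hdiff fun l => Finset.mem_compl.2 (hτ l)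

theorem lconcl {n N r₀ r : ℕ} {𝔤 : Submodule ℂ (Matrix (Fin n) (Fin n) ℂ)} {lev₀ : Fin r₀ → ℤ} {lev : Fin n → ℤ}
    {C₀ : Matrix (Fin r₀) (Fin r₀) ℂ} {C : Matrix (Fin n) (Fin n) ℂ} {P : Fin N → Matrix (Fin n) (Fin n) ℂ}
    (hu : IsUnit (total C₀ P))
    (h : ∀ 𝔥 : Submodule ℂ (Matrix (Fin r₀ ⊕ (Fin n × Fin N)) (Fin r₀ ⊕ (Fin n × Fin N)) ℂ),
      Pool.Agent.Helper880_ZP.DefOver Pool.Agent.Helper880_ZP.K₀ 𝔥 → Pool.Agent.Helper880_ZP.Lie' 𝔥 →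
      (∃ φ ∈ 𝔥, ∃ V ∈ Pool.Agent.Helper880_ZP.upS ℂ (Pool.Agent.Helper880_ZP.Lv N lev₀ lev),
        φ * (total C₀ P * (1 + V)) = total C₀ P * (1 + V) * Pool.Agent.Helper880_ZP.Dg ℂ (Pool.Agent.Helper880_ZP.Lv N lev₀ lev)) →
      Module.finrank ℂ (Pool.Agent.Helper880_ZP.blS r₀ N (Pool.Agent.Helper880_ZP.cgS C 𝔤)) ≤
        Module.finrank ℂ (Pool.Agent.Helper880_ZP.blS r₀ N (Pool.Agent.Helper880_ZP.cgS C 𝔤) ⊓
          (𝔥 ⊔ Pool.Agent.Helper880_ZP.cjS (total C₀ P)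
            (Pool.Agent.Helper880_ZP.ppS ℂ (Pool.Agent.Helper880_ZP.Lv N lev₀ lev))) : Submodule ℂ _) + r) :
    LieFew r (conjugate C 𝔤) lev₀ lev C₀ P := by
  intro c 𝔪 φ₀ φ hm hmr hml hmp h0 hsp hst hcod 𝔥 hr hL hφ
  have hr' := rat_eq.1 hr
  have hL' : Pool.Agent.Helper880_ZP.Lie' 𝔥 := hL
  obtain ⟨⟨V, hV, hVe⟩, hblk⟩ := Pool.Agent.Helper880_ZP.blk hu h0 hsp
  have hud := (Matrix.isUnit_iff_isUnit_det _).1 hu
  obtain ⟨hEig, hcj⟩ := Pool.Agent.Helper880_ZP.Eig.mk' hud hV hVe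
  have hc1 := h _ hr' hL' ⟨_, hφ, V, hV, hVe⟩
  have hc2 : Module.finrank ℂ (Pool.Agent.Helper880_ZP.blS r₀ N (Pool.Agent.Helper880_ZP.cgS C 𝔤)) ≤
      Module.finrank ℂ (Pool.Agent.Helper880_ZP.blS r₀ N (Pool.Agent.Helper880_ZP.cgS C 𝔤) ⊓
        (𝔥 ⊔ Pool.Agent.Helper880_ZP.cjS (total C₀ P * (1 + V))
          (Pool.Agent.Helper880_ZP.ppS ℂ (Pool.Agent.Helper880_ZP.Lv N lev₀ lev))) : Submodule ℂ _) + r := by
    rw [hcj]
    exact hc1
  have hmem : ∀ j, ∀ X ∈ 𝔪, Pool.Agent.Helper880_R3.ib j X ∈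
      Pool.Agent.Helper880_ZP.blS r₀ N (Pool.Agent.Helper880_ZP.cgS C 𝔤) := fun j X hX =>
    Pool.Agent.Helper880_ZP.ib_blS (hm hX)
  obtain ⟨S, h1, h2⟩ := Pool.Agent.Helper880_EX.LH_main (c := c) hEig hL' hml hr' (rat_eq.1 hmr) hmp hφ hst
    (fun j 𝔫 k1 k2 k3 k4 k5 => hcod j 𝔫 k1 (rat_eq.2 k2) k3 k4 k5) hmem hc2
  refine ⟨S, h1, fun j hj X hX => ?_⟩
  obtain ⟨Y, y1, y2, y3, y4⟩ := h2 j (Finset.mem_compl.2 hj) X hX
  exact ⟨Y, y1, y2, y3, fun i hi hij => y4 i (Finset.mem_compl.2 hi) hij⟩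

theorem per_eq {n : ℕ} (C : Matrix (Fin n) (Fin n) ℂ) (M : Matrix (Fin n) (Fin n) ℚ) (Z : Matrix (Fin n) (Fin n) (PowerSeries ℚ))
    (t : ℕ) : period C M Z t = C * (NormedSpace.exp ((-((Real.log (t : ℝ) : ℝ) : ℂ)) • Pool.Agent.Y119.HY.cm M) *
      Pool.Agent.Y118.HV.Hv Z t) := by
  unfold period
  rw [map_eq]
  rfl

theorem value_sc {n : ℕ} (Z : Matrix (Fin n) (Fin n) (PowerSeries ℚ)) (g : ℤ) (t : ℕ) :
    Pool.Agent.Y118.HV.Hv (Pool.Agent.Helper880_UN.scZ g Z) t = valueAt Z ((g : ℝ) / t) := by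
  ext i j
  show ((∑' k : ℕ, ((coeff k (rescale (g : ℚ) (Z i j)) : ℚ) : ℝ) * (1 / (t : ℝ)) ^ k : ℝ) : ℂ) =
    ((∑' k : ℕ, ((coeff k (Z i j) : ℚ) : ℝ) * ((g : ℝ) / t) ^ k : ℝ) : ℂ)
  congr 2
  funext k
  rw [coeff_rescale]
  push_cast
  rw [div_pow, div_pow, one_pow]
  ring

theorem rational (n : ℕ) (hn : 0 < n) (T : Polynomial ℤ) (A : Fin (n * n) → Fin (n * n) → Polynomial ℤ)
    (Z : Matrix (Fin n) (Fin n) (PowerSeries ℚ)) (hG : GFamily T A (entries Z)) (M : Matrix (Fin n) (Fin n) ℚ)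
    (hM : M ^ n = 0) (𝔤 : Submodule ℂ (Matrix (Fin n) (Fin n) ℂ)) (hI : ∀ X ∈ 𝔤, Symmetry Z X)
    (hM𝔤 : ∀ X ∈ 𝔤, toC M * X - X * toC M ∈ 𝔤) (r₀ s r : ℕ) (C₀ : Matrix (Fin r₀) (Fin r₀) ℂ) (C : Matrix (Fin n) (Fin n) ℂ)
    (lev₀ : Fin r₀ → ℤ) (lev : Fin n → ℤ) (hfew : FewPeriods s C₀ C) (hs : s + (if M = 0 then 0 else 1) ≤ r) :
    ∃ E : ℕ, ∀ (g : ℤ) (t : ℕ), g ≠ 0 → (g.natAbs + 2) ^ E ≤ t → ∀ L : ℂ,
      IsUnit (total C₀ fun _ : Fin 1 => periodAt C M L Z ((g : ℝ) / t)) →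
      FewExceptions r (conjugate C 𝔤) lev₀ lev C₀ fun _ : Fin 1 => periodAt C M L Z ((g : ℝ) / t) := by
  obtain ⟨q', C', hG'⟩ := Pool.Agent.Y120.GH.gsys_of hG.ode hG.size hG.den (gal_eq hG)
  rw [map_eq] at hM𝔤
  obtain ⟨E, hE⟩ := Pool.Agent.Helper880_UN.two_uni (N := 1) hn (Pool.Agent.Helper880_UN.uf_scZ hG.T_ne hG')
    (fun g X hX => by
      have h1 : X = fun _ => X 0 := funext fun j => by rw [Subsingleton.elim j 0]
      rw [h1]
      exact Pool.Agent.Helper880_UN.infJ_sc (sym_inf (hI _ (hX 0))) g.2) hM hM𝔤 1 r₀ s r C₀ C lev₀ lev hfew hs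
  refine ⟨E, fun g t hg ht L hu => concl hu fun 𝔥 h1 h2 h3 =>
    (hE ⟨g, hg⟩ t ht L (fun _ => periodAt C M L Z ((g : ℝ) / t)) ?_ hu 𝔥 h1).2 h2 h3⟩
  funext j
  unfold periodAt
  rw [map_eq, value_sc]

theorem lwindows (n : ℕ) (hn : 0 < n) (T : Polynomial ℤ) (A : Fin (n * n) → Fin (n * n) → Polynomial ℤ)
    (Z : Matrix (Fin n) (Fin n) (PowerSeries ℚ)) (hG : GFamily T A (entries Z)) (M : Matrix (Fin n) (Fin n) ℚ)
    (hM : M ^ n = 0) (𝔤 : Submodule ℂ (Matrix (Fin n) (Fin n) ℂ)) (hI : ∀ X ∈ 𝔤, Symmetry Z X)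
    (hM𝔤 : ∀ X ∈ 𝔤, toC M * X - X * toC M ∈ 𝔤) :
    ∃ G : ℕ, 1 ≤ G ∧ ∀ (N r₀ s r : ℕ) (C₀ : Matrix (Fin r₀) (Fin r₀) ℂ) (C : Matrix (Fin n) (Fin n) ℂ)
      (lev₀ : Fin r₀ → ℤ) (lev : Fin n → ℤ), 0 < N → FewPeriods s C₀ C → s + (if M = 0 then 0 else 1) ≤ r →
      ∃ E : ℕ, ∀ t : Fin N → ℕ, InWindow G E t → IsUnit (total C₀ fun j => period C M Z (t j)) →
        LieFew r (conjugate C 𝔤) lev₀ lev C₀ fun j => period C M Z (t j) := by
  obtain ⟨q', C', hG'⟩ := Pool.Agent.Y120.GH.gsys_of hG.ode hG.size hG.den (gal_eq hG)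
  rw [map_eq] at hM𝔤
  obtain ⟨G, hG1, h⟩ := Pool.Agent.Helper880_ZP.two hn hG.T_ne hG.ode hG' (qu_eq hG.regular)
    (fun X hX => sym_inf (hI X hX)) hM hM𝔤
  refine ⟨G, hG1, fun N r₀ s r C₀ C lev₀ lev hN hfew hs => ?_⟩
  obtain ⟨E, hE⟩ := h N 1 r₀ s r C₀ C lev₀ lev hN hfew hs
  exact ⟨E, fun t ht hu => lconcl hu fun 𝔥 h1 h2 h3 =>
    (hE t ht.1 ht.2.1 ht.2.2 (fun j => period C M Z (t j)) (funext fun j => per_eq _ _ _ _) hu 𝔥 h1).2 h2 h3⟩

theorem count (n : ℕ) (hn : 0 < n) (T : Polynomial ℤ) (A : Fin (n * n) → Fin (n * n) → Polynomial ℤ)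
    (Z : Matrix (Fin n) (Fin n) (PowerSeries ℚ)) (hG : GFamily T A (entries Z)) (M : Matrix (Fin n) (Fin n) ℚ)
    (hM : M ^ n = 0) (𝔤 : Submodule ℂ (Matrix (Fin n) (Fin n) ℂ)) (hI : ∀ X ∈ 𝔤, Symmetry Z X)
    (hM𝔤 : ∀ X ∈ 𝔤, toC M * X - X * toC M ∈ 𝔤) (r₀ : ℕ) (C₀ : Matrix (Fin r₀) (Fin r₀) ℂ) (C : Matrix (Fin n) (Fin n) ℂ)
    (lev₀ : Fin r₀ → ℤ) (lev : Fin n → ℤ) (hC₀ : IsUnit C₀) :
    ∃ K δ : ℝ, 0 < δ ∧ ∀ (k : ℕ) (𝔦 : Fin k → Submodule ℂ (Matrix (Fin n) (Fin n) ℂ))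
        (φ₀ : Matrix (Fin r₀) (Fin r₀) ℂ), (∀ l, 𝔦 l ≤ conjugate C 𝔤) → (∀ l, IsSimpleOverRationals (𝔦 l)) →
        Splits lev₀ C₀ φ₀ → ∀ x : ℕ, 1 ≤ x →
          (({t | InLocus C M Z lev φ₀ 𝔦 t ∧ t ≤ x}.ncard : ℕ) : ℝ) ≤ k * (K * (x : ℝ) ^ (1 - δ)) := by
  have hw := lwindows n hn T A Z hG M hM 𝔤 hI hM𝔤
  obtain ⟨G, hG1, h⟩ := hw
  obtain ⟨s, hs⟩ := all_few C₀ C
  set r := s + (if M = 0 then 0 else 1) with hr
  obtain ⟨E, hE⟩ := h (r + 1) r₀ s r C₀ C lev₀ lev (Nat.succ_pos r) hs le_rfl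
  obtain ⟨K, δ, hδ, hK⟩ := Pool.Agent.Helper880_AJ.count_win (G := G) (E := E) (N := r + 1) (by omega) (Nat.succ_pos r)
  -- simple Lie algebras
  have one : ∀ (𝔪 : Submodule ℂ (Matrix (Fin n) (Fin n) ℂ)) (φ₀ : Matrix (Fin r₀) (Fin r₀) ℂ),
      𝔪 ≤ conjugate C 𝔤 → IsSimpleOverRationals 𝔪 → Splits lev₀ C₀ φ₀ → ∀ x : ℕ, 1 ≤ x →
      (({t | InLocus C M Z lev φ₀ (fun _ : Fin 1 => 𝔪) t ∧ t ≤ x}.ncard : ℕ) : ℝ) ≤ K * (x : ℝ) ^ (1 - δ) := by
    intro 𝔪 φ₀ hm hsimple h0 x hx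
    refine hK {t | InLocus C M Z lev φ₀ (fun _ : Fin 1 => 𝔪) t} ?_ x hx
    intro t ht1 ht2 ht3
    by_contra hcon
    simp only [not_exists, not_not] at hcon
    choose hu φ hφ hw hst hne 𝔥 hrat hlie hin X hX hnot using hcon
    have hQ : Pool.Agent.Helper880_EX.QSi 𝔪 := ⟨rat_eq.1 hsimple.rational, hsimple.lie, hsimple.nonabelian,
      fun 𝔦 k1 k2 k3 k4 => hsimple.simple 𝔦 k1 (rat_eq.2 k2) k3 k4⟩
    have hU := total_unit hC₀ hu
    obtain ⟨-, hblk⟩ := Pool.Agent.Helper880_ZP.blk hU h0 hφ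
    obtain ⟨S, hS, hS'⟩ := hE t ⟨ht1, ht2, ht3⟩ hU 1 𝔪 φ₀ φ hm hsimple.rational hsimple.lie hQ.prf h0 hφ
      (fun j => hst j 0)
      (fun j 𝔫 k1 k2 k3 k4 k5 => (hblk j).elim fun R hR => (hw j).elim fun w hw =>
        hQ.cod hR hw (hst j 0) (hne j 0) 𝔫 k1 (rat_eq.1 k2) k3 k4 k5)
      (Pool.Agent.Helper880_EX.prH 𝔥) (rat_eq.2 (Pool.Agent.Helper880_EX.prH_rat fun j => rat_eq.1 (hrat j)))
      (Pool.Agent.Helper880_EX.prH_lie hlie) ⟨φ₀, φ, rfl, hin⟩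
    obtain ⟨j, hj⟩ : ∃ j, j ∉ S := by
      by_contra hc
      simp only [not_exists, not_not] at hc
      have h1 : S = Finset.univ := Finset.eq_univ_of_forall hc
      rw [h1, Finset.card_univ, Fintype.card_fin] at hS
      omega
    have hXj : X j ∈ 𝔪 := by
      have h1 := hX j
      rwa [ciSup_const] at h1
    obtain ⟨Y, -, y2, y3, -⟩ := hS' j hj (X j) hXj
    refine hnot j ?_
    have h1 := Pool.Agent.Helper880_EX.prH_of (j := j) y2
    rw [y3] at h1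
    exact h1
  refine ⟨K, δ, hδ, fun k 𝔦 φ₀ hm hsimple h0 x hx => ?_⟩
  have hsub : {t | InLocus C M Z lev φ₀ 𝔦 t ∧ t ≤ x} ⊆
      ⋃ l ∈ (Finset.univ : Finset (Fin k)), {t | InLocus C M Z lev φ₀ (fun _ : Fin 1 => 𝔦 l) t ∧ t ≤ x} := by
    rintro t ⟨⟨hu, φ, hφ, hw, hst, hne, 𝔥, hrat, hlie, hin, X, hX, hnot⟩, htx⟩
    by_contra hcon
    simp only [Set.mem_iUnion, not_exists, Set.mem_ofPred_eq] at hcon
    have h1 : (⨆ l, 𝔦 l) ≤ 𝔥.comap (Pool.Agent.Helper880_R3.ib (r₀ := r₀) (0 : Fin 1)) := by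
      refine iSup_le fun l Y hY => ?_
      by_contra hc
      refine hcon l (Finset.mem_univ l) ⟨⟨hu, φ, hφ, hw, fun _ => hst l, fun _ => hne l, 𝔥, hrat, hlie, hin, Y, ?_, ?_⟩, htx⟩
      · rw [ciSup_const]
        exact hY
      · intro h2
        refine hc ?_
        rw [Submodule.mem_comap, Pool.Agent.Helper880_R3.ib_apply]
        have h3 : (Pi.single 0 Y : Fin 1 → Matrix (Fin n) (Fin n) ℂ) = fun _ => Y := by
          funext j
          rw [Subsingleton.elim j 0, Pi.single_eq_same]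
        rw [h3]
        exact h2
    have h2 := h1 hX
    rw [Submodule.mem_comap, Pool.Agent.Helper880_R3.ib_apply] at h2
    have h3 : (Pi.single 0 X : Fin 1 → Matrix (Fin n) (Fin n) ℂ) = fun _ => X := by
      funext j
      rw [Subsingleton.elim j 0, Pi.single_eq_same]
    rw [h3] at h2
    exact hnot h2
  have hfin : (⋃ l ∈ (Finset.univ : Finset (Fin k)), {t | InLocus C M Z lev φ₀ (fun _ : Fin 1 => 𝔦 l) t ∧ t ≤ x}).Finite := by
    refine Set.Finite.subset (Set.finite_le_nat x) ?_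
    intro t ht
    simp only [Set.mem_iUnion, Set.mem_ofPred_eq] at ht
    obtain ⟨l, -, -, h1⟩ := ht
    exact h1
  have h1 := Set.ncard_le_ncard hsub hfin
  have h2 : (⋃ l ∈ (Finset.univ : Finset (Fin k)), {t | InLocus C M Z lev φ₀ (fun _ : Fin 1 => 𝔦 l) t ∧ t ≤ x}).ncard ≤
      ∑ l : Fin k, {t | InLocus C M Z lev φ₀ (fun _ : Fin 1 => 𝔦 l) t ∧ t ≤ x}.ncard :=
    Finset.set_ncard_biUnion_le _ _
  have h3 : ((∑ l : Fin k, {t | InLocus C M Z lev φ₀ (fun _ : Fin 1 => 𝔦 l) t ∧ t ≤ x}.ncard : ℕ) : ℝ) ≤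
      ∑ l : Fin k, K * (x : ℝ) ^ (1 - δ) := by
    push_cast
    exact Finset.sum_le_sum fun l _ => one (𝔦 l) φ₀ (hm l) (hsimple l) h0 x hx
  rw [Finset.sum_const, Finset.card_univ, Fintype.card_fin, nsmul_eq_mul] at h3
  have h4 : (({t | InLocus C M Z lev φ₀ 𝔦 t ∧ t ≤ x}.ncard : ℕ) : ℝ) ≤
      ((∑ l : Fin k, {t | InLocus C M Z lev φ₀ (fun _ : Fin 1 => 𝔦 l) t ∧ t ≤ x}.ncard : ℕ) : ℝ) := by
    exact_mod_cast h1.trans h2
  exact h4.trans h3

/-! ### absolute Hodge classes -/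

open Pool.Agent.Helper880_HC (Ten act act_apply tC one) in
open Pool.Agent.Helper880_AH in
theorem transfer {n r₀ : ℕ} {Z : Matrix (Fin n) (Fin n) (PowerSeries ℚ)} {𝔤 : Submodule ℂ (Matrix (Fin n) (Fin n) ℂ)}
    (hr : IsRational 𝔤) (hRI : RationalInvariants Z 𝔤) {u₀ : ℚ}
    (hc : ∀ a b, Pool.Agent.Helper880_R3.Cc (u₀ : ℝ) (cx (Z a b)))
    {C₀ φ₀ : Matrix (Fin r₀) (Fin r₀) ℂ} {C φc φ : Matrix (Fin n) (Fin n) ℂ} (hC₀ : IsUnit C₀)
    (hP : IsUnit (C * valueAt Z (u₀ : ℝ))) (hd : φ - φc ∈ conjugate C 𝔤)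
    (hk : ∀ (d₀ d : ℕ) (f : (Fin d₀ → Fin r₀) → (Fin d → Fin n) → ℚ), IsHodgeN φ₀ (fun _ : Fin 1 => φ) (fun _ => 0) f →
      Invariant (conjugate C 𝔤) (fun _ : Fin d => (0 : Fin 1)) f) :
    Transfers C₀ φ₀ C φc (C * valueAt Z (u₀ : ℝ)) φ := by
  have hr' := rat_eq.1 hr
  set Zt := valueAt Z (u₀ : ℝ) with hZt
  have hdet := (Matrix.isUnit_iff_isUnit_det _).1 hP
  rw [Matrix.det_mul] at hdet
  have hCd : IsUnit C.det := isUnit_of_mul_isUnit_left hdet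
  have hZd : IsUnit Zt.det := isUnit_of_mul_isUnit_right hdet
  have hC₀d := (Matrix.isUnit_iff_isUnit_det _).1 hC₀
  have hval : ∀ a b, Zt a b = Pool.Agent.Helper880_R3.ec (u₀ : ℝ) (cx (Z a b)) := by
    intro a b
    show ((∑' k : ℕ, ((coeff k (Z a b) : ℚ) : ℝ) * (u₀ : ℝ) ^ k : ℝ) : ℂ) = _
    unfold Pool.Agent.Helper880_R3.ec
    rw [Complex.ofReal_tsum]
    refine tsum_congr fun m => ?_
    rw [cx, PowerSeries.coeff_map, eq_ratCast]
    push_cast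
    rfl
  intro σ C₀' φ₀' hah d₀ d q f hf
  have hfN : IsHodgeN φ₀ (fun _ : Fin 1 => φ) (fun _ => 0) f := ⟨q, hf⟩
  have hinv := hk d₀ d f hfN
  rw [inv_eq] at hinv
  have hla : ∀ X ∈ conjugate C 𝔤, la X (tC f) = 0 := fun X hX => by
    rw [← one_la]
    exact hinv 0 X hX
  -- Hodge classes for `φ` and `φc`
  have hop : ∀ (x₀ : Matrix (Fin r₀) (Fin r₀) ℂ) (g : Ten ℚ d₀ d r₀ n), la (φ - φc) (tC g) = 0 → ∀ x y,
      ∑ l, ∑ a, φ (y l) a * (g x (Function.update y l a) : ℂ) = ∑ l, ∑ a, φc (y l) a * (g x (Function.update y l a) : ℂ) := by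
    intro x₀ g hg x y
    have h1 := congrFun (congrFun hg x) y
    rw [la_apply] at h1
    have h2 : ∑ l, ∑ a, (φ - φc) (y l) a * tC g x (Function.update y l a) =
        ∑ l, ∑ a, φ (y l) a * (g x (Function.update y l a) : ℂ) - ∑ l, ∑ a, φc (y l) a * (g x (Function.update y l a) : ℂ) := by
      rw [← Finset.sum_sub_distrib]
      refine Finset.sum_congr rfl fun l _ => ?_
      rw [← Finset.sum_sub_distrib]
      refine Finset.sum_congr rfl fun a _ => ?_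
      rw [Matrix.sub_apply, sub_mul]
      rfl
    rw [h2] at h1
    exact sub_eq_zero.1 h1
  have hfc : IsHodge q φ₀ φc f := by
    intro x y
    rw [← hop 0 f (hla _ hd) x y]
    exact hf x y
  obtain ⟨f', hf', w, hw, hw'⟩ := hah d₀ d q f hfc
  set κ : ℂ := (2 * Real.pi * Complex.I : ℂ) ^ q with hκ
  have e1 : tC f = gp C₀ C w := by
    funext x y
    exact hw x y
  have e2 : tC f' = gp C₀' C (cw σ κ w) := by
    funext x y
    exact hw' x y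
  -- `w` is invariant
  have hconj : ∀ X : Matrix (Fin n) (Fin n) ℂ, C⁻¹ * (C * X * C⁻¹) * C = X := by
    intro X
    rw [← Matrix.mul_assoc, ← Matrix.mul_assoc, Matrix.nonsing_inv_mul _ hCd, Matrix.one_mul, Matrix.mul_assoc,
      Matrix.nonsing_inv_mul _ hCd, Matrix.mul_one]
  have hwk : ∀ X ∈ 𝔤, la X w = 0 := by
    intro X hX
    have h1 := hla (C * X * C⁻¹) ⟨X, hX, rfl⟩
    rw [e1, la_gp C₀ hCd, hconj] at h1
    have h2 := gp_mul C₀⁻¹ C₀ C⁻¹ C (la X w)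
    rw [h1, gp_zero, Matrix.nonsing_inv_mul _ hCd, Matrix.nonsing_inv_mul _ hC₀d, gp_one] at h2
    exact h2
  obtain ⟨wt, hwt, hwt'⟩ := conj_inv hr' (fun g hg => ri_eval (r₀ := r₀) hRI hc hval hZd g hg) hwk
  refine ⟨f', ?_, wt, fun x y => ?_, fun x y => ?_⟩
  · -- the conjugate is a Hodge class
    have h1 : la (φ - φc) (tC f') = 0 := by
      obtain ⟨X, hX, he⟩ := hd
      rw [he, e2, la_gp C₀' hCd, hconj, cw_kill hr' hwk σ κ X hX, gp_zero]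
    intro x y
    rw [hop 0 f' h1 x y]
    exact hf' x y
  · have h1 : gp C₀ (C * Zt) wt = tC f := by
      have h2 := gp_mul C₀ 1 C Zt wt
      rw [Matrix.mul_one] at h2
      rw [h2, hwt, e1]
    exact (congrFun (congrFun h1 x) y).symm
  · have h1 : gp C₀' (C * Zt) (cw σ κ wt) = tC f' := by
      have h2 := gp_mul C₀' 1 C Zt (cw σ κ wt)
      rw [Matrix.mul_one] at h2
      rw [h2, hwt' σ κ, e2]
    exact (congrFun (congrFun h1 x) y).symm

/-- convergence -/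
theorem conv {n : ℕ} {Z : Matrix (Fin n) (Fin n) (PowerSeries ℚ)}
    (hs : ∃ K : ℝ, ∀ i m, |((coeff m (entries Z i) : ℚ) : ℝ)| ≤ K ^ (m + 1)) :
    ∃ E : ℕ, ∀ (g : ℤ) (t : ℕ), (g.natAbs + 2) ^ E ≤ t → ∀ a b,
      Pool.Agent.Helper880_R3.Cc ((((g : ℚ) / t : ℚ)) : ℝ) (Pool.Agent.Helper880_AH.cx (Z a b)) := by
  obtain ⟨K, hK⟩ := hs
  obtain ⟨E₁, hE₁⟩ := pow_unbounded_of_one_lt (2 * max K 1) (one_lt_two : (1 : ℝ) < 2)
  refine ⟨E₁ + 1, fun g t ht a b => ?_⟩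
  have hK1 : (1 : ℝ) ≤ max K 1 := le_max_right _ _
  have hK0 : (0 : ℝ) < max K 1 := by linarith
  set u : ℝ := (((g : ℚ) / t : ℚ) : ℝ) with hu
  have hpos : 0 < (g.natAbs + 2) ^ (E₁ + 1) := by positivity
  have ht0 : (0 : ℝ) < t := by exact_mod_cast lt_of_lt_of_le hpos ht
  have hu1 : |u| ≤ ((2 : ℝ) ^ E₁)⁻¹ := by
    have h1 : |u| = (g.natAbs : ℝ) / t := by
      rw [hu]
      push_cast
      rw [abs_div, abs_of_pos ht0, Nat.cast_natAbs, Int.cast_abs]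
    rw [h1, div_le_iff₀ ht0]
    have h2 : ((g.natAbs : ℝ) + 2) ^ (E₁ + 1) ≤ t := by exact_mod_cast ht
    have h3 : (2 : ℝ) ^ E₁ * (g.natAbs : ℝ) ≤ ((g.natAbs : ℝ) + 2) ^ (E₁ + 1) := by
      rw [pow_succ]
      have h4 : (0 : ℝ) ≤ (g.natAbs : ℝ) := Nat.cast_nonneg _
      refine mul_le_mul (pow_le_pow_left₀ (by norm_num) (by linarith) _) (by linarith) h4 (by positivity)
    have h5 : (0 : ℝ) < 2 ^ E₁ := by positivity
    rw [inv_mul_eq_div, le_div_iff₀ h5, mul_comm]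
    exact h3.trans h2
  have hr : max K 1 * |u| ≤ 1 / 2 := by
    have h5 : (0 : ℝ) < 2 ^ E₁ := by positivity
    calc max K 1 * |u| ≤ max K 1 * ((2 : ℝ) ^ E₁)⁻¹ := mul_le_mul_of_nonneg_left hu1 hK0.le
      _ ≤ 1 / 2 := by
        rw [mul_inv_le_iff₀ h5]
        linarith
  have hsum : Summable fun m : ℕ => max K 1 * (1 / 2 : ℝ) ^ m :=
    (summable_geometric_of_lt_one (by norm_num) (by norm_num)).mul_left _
  refine Summable.of_nonneg_of_le (fun m => norm_nonneg _) (fun m => ?_) hsum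
  rw [Pool.Agent.Helper880_AH.cx, PowerSeries.coeff_map, norm_mul, norm_pow, Complex.norm_real, Real.norm_eq_abs, eq_ratCast]
  have h1 : ‖((coeff m (Z a b) : ℚ) : ℂ)‖ = |((coeff m (Z a b) : ℚ) : ℝ)| := by
    have h2 : ((coeff m (Z a b) : ℚ) : ℂ) = (((coeff m (Z a b) : ℚ) : ℝ) : ℂ) := by push_cast; rfl
    rw [h2, Complex.norm_real, Real.norm_eq_abs]
  rw [h1]
  have h2 := hK (finProdFinEquiv (a, b)) m
  have h3 : entries Z (finProdFinEquiv (a, b)) = Z a b := by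
    unfold entries
    rw [Equiv.symm_apply_apply]
  rw [h3] at h2
  have h4 : |((coeff m (Z a b) : ℚ) : ℝ)| ≤ (max K 1) ^ (m + 1) := by
    refine h2.trans ?_
    rcases le_or_gt 0 K with h5 | h5
    · exact pow_le_pow_left₀ h5 (le_max_left _ _) _
    · have h6 : K ^ (m + 1) ≤ |K| ^ (m + 1) := by
        rw [← abs_pow]
        exact le_abs_self _
      have h7 := hK (finProdFinEquiv (a, b)) 0
      rw [zero_add, pow_one] at h7
      exact absurd (abs_nonneg _) (not_le.2 (lt_of_le_of_lt h7 h5))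
  calc |((coeff m (Z a b) : ℚ) : ℝ)| * |u| ^ m ≤ (max K 1) ^ (m + 1) * |u| ^ m :=
        mul_le_mul_of_nonneg_right h4 (by positivity)
    _ = max K 1 * (max K 1 * |u|) ^ m := by rw [mul_pow]; ring
    _ ≤ max K 1 * (1 / 2) ^ m := mul_le_mul_of_nonneg_left (pow_le_pow_left₀ (by positivity) hr _) hK0.le

theorem exp0 {n : ℕ} (L : ℂ) : NormedSpace.exp ((-L) • toC (0 : Matrix (Fin n) (Fin n) ℚ)) = 1 := by
  have h1 : toC (0 : Matrix (Fin n) (Fin n) ℚ) = 0 := by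
    ext i j
    show (((0 : ℚ)) : ℂ) = 0
    rw [Rat.cast_zero]
  rw [h1, smul_zero, NormedSpace.exp_zero]

theorem periodAt0 {n : ℕ} (C : Matrix (Fin n) (Fin n) ℂ) (Z : Matrix (Fin n) (Fin n) (PowerSeries ℚ)) (L : ℂ) (u : ℝ) :
    periodAt C 0 L Z u = C * valueAt Z u := by
  unfold periodAt
  rw [exp0, Matrix.one_mul]

theorem period0 {n : ℕ} (C : Matrix (Fin n) (Fin n) ℂ) (Z : Matrix (Fin n) (Fin n) (PowerSeries ℚ)) (t : ℕ) :
    period C 0 Z t = C * valueAt Z (1 / (t : ℝ)) := by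
  unfold period
  rw [exp0, Matrix.one_mul]
  rfl

/-- **The theorem.** -/
theorem result (n : ℕ) (hn : 0 < n) (T : Polynomial ℤ) (A : Fin (n * n) → Fin (n * n) → Polynomial ℤ)
    (Z : Matrix (Fin n) (Fin n) (PowerSeries ℚ)) (hG : GFamily T A (entries Z))
    (𝔤 : Submodule ℂ (Matrix (Fin n) (Fin n) ℂ)) (hI : ∀ X ∈ 𝔤, Symmetry Z X) (hr : IsRational 𝔤)
    (hRI : RationalInvariants Z 𝔤) (r₀ : ℕ) (C₀ : Matrix (Fin r₀) (Fin r₀) ℂ) (C : Matrix (Fin n) (Fin n) ℂ)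
    (lev₀ : Fin r₀ → ℤ) (lev : Fin n → ℤ) (hC₀ : IsUnit C₀) :
    (∀ s r : ℕ, FewPeriods s C₀ C → s ≤ r → IsRational (conjugate C 𝔤) → IsLie (conjugate C 𝔤) → IsPerfect (conjugate C 𝔤) →
      ∃ E : ℕ, ∀ (g : ℤ) (t : ℕ), g ≠ 0 → (g.natAbs + 2) ^ E ≤ t → IsUnit (C * valueAt Z ((g : ℝ) / t)) →
        ∀ (c : ℕ) (φ₀ : Matrix (Fin r₀) (Fin r₀) ℂ) (φc φ : Matrix (Fin n) (Fin n) ℂ), r < c → Splits lev₀ C₀ φ₀ →
          Splits lev (C * valueAt Z ((g : ℝ) / t)) φ → Normalises φc (conjugate C 𝔤) → φ - φc ∈ conjugate C 𝔤 →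
          Codimension c (conjugate C 𝔤) φ → Transfers C₀ φ₀ C φc (C * valueAt Z ((g : ℝ) / t)) φ) ∧
    ∃ K δ : ℝ, 0 < δ ∧ ∀ (k : ℕ) (𝔦 : Fin k → Submodule ℂ (Matrix (Fin n) (Fin n) ℂ)) (φ₀ : Matrix (Fin r₀) (Fin r₀) ℂ)
      (φc : Matrix (Fin n) (Fin n) ℂ), (⨆ l, 𝔦 l) = conjugate C 𝔤 → (∀ l, IsSimpleOverRationals (𝔦 l)) →
        Splits lev₀ C₀ φ₀ → ∀ x : ℕ, 1 ≤ x →
          (({t | Exceptional C₀ φ₀ C φc Z lev 𝔦 t ∧ t ≤ x}.ncard : ℕ) : ℝ) ≤ (k + 1) * (K * (x : ℝ) ^ (1 - δ)) := by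
  have hM𝔤 : ∀ X ∈ 𝔤, toC (0 : Matrix (Fin n) (Fin n) ℚ) * X - X * toC (0 : Matrix (Fin n) (Fin n) ℚ) ∈ 𝔤 := by
    intro X hX
    have h1 : toC (0 : Matrix (Fin n) (Fin n) ℚ) = 0 := by
      ext i j
      show (((0 : ℚ)) : ℂ) = 0
      rw [Rat.cast_zero]
    rw [h1, Matrix.zero_mul, Matrix.mul_zero, sub_zero]
    exact 𝔤.zero_mem
  have hM : (0 : Matrix (Fin n) (Fin n) ℚ) ^ n = 0 := zero_pow hn.ne'
  obtain ⟨E₂, hE₂⟩ := conv hG.size
  refine ⟨fun s r hfew hs hmr hml hmp => ?_, ?_⟩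
  · obtain ⟨E₁, hE₁⟩ := rational n hn T A Z hG 0 hM 𝔤 hI hM𝔤 r₀ s r C₀ C lev₀ lev hfew (by rw [if_pos rfl]; exact hs)
    refine ⟨max E₁ E₂, fun g t hg ht hu c φ₀ φc φ hrc h0 hφ hnc hd hcod => ?_⟩
    have ht1 : (g.natAbs + 2) ^ E₁ ≤ t := (Nat.pow_le_pow_right (by omega) (le_max_left _ _)).trans ht
    have ht2 : (g.natAbs + 2) ^ E₂ ≤ t := (Nat.pow_le_pow_right (by omega) (le_max_right _ _)).trans ht
    have hper : (fun _ : Fin 1 => periodAt C 0 0 Z ((g : ℝ) / t)) = fun _ => C * valueAt Z ((g : ℝ) / t) := by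
      funext j
      exact periodAt0 _ _ _ _
    have hfe := hE₁ g t hg ht1 0 (by
      rw [hper]
      exact total_unit hC₀ fun _ => hu)
    rw [hper] at hfe
    obtain ⟨S, hS, hS'⟩ := hfe c (conjugate C 𝔤) φ₀ φc (fun _ => φ) le_rfl hmr hml hmp hnc h0 (fun _ => hφ) (fun _ => hd)
      (fun _ => hcod)
    have hS0 : S = ∅ := by
      by_contra hne
      have h1 : 1 ≤ S.card := Finset.card_pos.2 (Finset.nonempty_iff_ne_empty.2 hne)
      have h2 : c ≤ S.card * c := Nat.le_mul_of_pos_left c h1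
      omega
    have hcast : ((((g : ℚ) / t : ℚ)) : ℝ) = (g : ℝ) / t := by push_cast; rfl
    have h3 := transfer (u₀ := (g : ℚ) / t) hr hRI (hE₂ g t ht2) (φ₀ := φ₀) (C := C) (φc := φc) (φ := φ) hC₀
      (by rw [hcast]; exact hu) hd fun d₀ d f hf => ((hS' d₀ d (fun _ => 0) f (fun l => by
        rw [hS0]
        exact Finset.notMem_empty _)).1 hf).2
    rw [hcast] at h3
    exact h3
  · obtain ⟨K, δ, hδ, hK⟩ := count n hn T A Z hG 0 hM 𝔤 hI hM𝔤 r₀ C₀ C lev₀ lev hC₀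
    set T₀ : ℕ := 3 ^ E₂ with hT₀
    refine ⟨max (max K 0) (T₀ + 1), min δ 1, lt_min hδ one_pos, fun k 𝔦 φ₀ φc hsum hsimple h0 x hx => ?_⟩
    have hx1 : (1 : ℝ) ≤ x := by exact_mod_cast hx
    have hK' := hK k 𝔦 φ₀ (fun l => hsum ▸ le_iSup 𝔦 l) hsimple h0 x hx
    have hsub : {t | Exceptional C₀ φ₀ C φc Z lev 𝔦 t ∧ t ≤ x} ⊆
        {t | InLocus C 0 Z lev φ₀ 𝔦 t ∧ t ≤ x} ∪ ((Finset.range (T₀ + 1) : Finset ℕ) : Set ℕ) := by
      rintro t ⟨⟨hu, φ, h1, h2, h3, h4, h5, h6⟩, htx⟩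
      by_cases htT : t ≤ T₀
      · exact Or.inr (Finset.mem_coe.2 (Finset.mem_range.2 (by omega)))
      · left
        refine ⟨?_, htx⟩
        rw [← period0] at hu h1
        refine ⟨hu, φ, h1, h2, h3, h4, Pool.Agent.Helper880_EX.mtB φ₀ (fun _ : Fin 1 => φ),
          rat_eq.2 Pool.Agent.Helper880_EX.mtB_rat, Pool.Agent.Helper880_EX.mtB_lie, Pool.Agent.Helper880_EX.mtB_phi, ?_⟩
        by_contra hcon
        simp only [not_exists, not_and, not_not] at hcon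
        have hperf : Pool.Agent.Helper880_EX.Prf (⨆ l, 𝔦 l) := Pool.Agent.Helper880_EX.Prf_iSup fun l =>
          (Pool.Agent.Helper880_EX.QSi.prf ⟨rat_eq.1 (hsimple l).rational, (hsimple l).lie, (hsimple l).nonabelian,
            fun 𝔧 k1 k2 k3 k4 => (hsimple l).simple 𝔧 k1 (rat_eq.2 k2) k3 k4⟩)
        have hLH : Pool.Agent.Helper880_EX.LH (Pool.Agent.Helper880_EX.mtB φ₀ (fun _ : Fin 1 => φ)) (⨆ l, 𝔦 l)
            (Finset.univ : Finset (Fin 1)) := by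
          intro i _ X hX
          exact ⟨fun _ => X, fun _ => hX, hcon X hX, rfl, fun i' _ hi' => absurd (Subsingleton.elim i' i) hi'⟩
        refine h6 ?_
        have hcast : ((((1 : ℤ) : ℚ) / t : ℚ) : ℝ) = 1 / (t : ℝ) := by push_cast; rfl
        have ht2 : ((1 : ℤ).natAbs + 2) ^ E₂ ≤ t := by
          have h7 : ((1 : ℤ).natAbs + 2) ^ E₂ = T₀ := by rw [hT₀]; rfl
          omega
        have h8 := transfer (u₀ := ((1 : ℤ) : ℚ) / t) hr hRI (hE₂ 1 t ht2) (φ₀ := φ₀) (C := C) (φc := φc) (φ := φ) hC₀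
          (by rw [hcast, ← period0]; exact hu) (by rw [← hsum]; exact h5) fun d₀ d f hf => by
            rw [inv_eq, ← hsum]
            exact ((Pool.Agent.Helper880_EX.hodge_iff hperf hLH (φc := φc) (fun _ => h5) fun l => Finset.mem_univ _).1
              (hodge_eq.1 hf)).2
        rw [hcast] at h8
        exact h8
    have hfin : ({t | InLocus C 0 Z lev φ₀ 𝔦 t ∧ t ≤ x} ∪ ((Finset.range (T₀ + 1) : Finset ℕ) : Set ℕ)).Finite :=
      ((Set.finite_le_nat x).subset fun t ht => ht.2).union (Finset.finite_toSet _)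
    have h1 := Set.ncard_le_ncard hsub hfin
    have h2 := Set.ncard_union_le {t | InLocus C 0 Z lev φ₀ 𝔦 t ∧ t ≤ x} ((Finset.range (T₀ + 1) : Finset ℕ) : Set ℕ)
    rw [Set.ncard_coe_finset, Finset.card_range] at h2
    have h3 : (({t | Exceptional C₀ φ₀ C φc Z lev 𝔦 t ∧ t ≤ x}.ncard : ℕ) : ℝ) ≤
        (({t | InLocus C 0 Z lev φ₀ 𝔦 t ∧ t ≤ x}.ncard : ℕ) : ℝ) + ((T₀ : ℝ) + 1) := by exact_mod_cast h1.trans h2
    have hp : (x : ℝ) ^ (1 - δ) ≤ (x : ℝ) ^ (1 - min δ 1) :=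
      Real.rpow_le_rpow_of_exponent_le hx1 (by linarith [min_le_left δ 1])
    have hp1 : (1 : ℝ) ≤ (x : ℝ) ^ (1 - min δ 1) := Real.one_le_rpow hx1 (by linarith [min_le_right δ 1])
    have hp0 : (0 : ℝ) ≤ (x : ℝ) ^ (1 - δ) := Real.rpow_nonneg (by linarith) _
    have hm1 : K ≤ max (max K 0) (T₀ + 1) := (le_max_left _ _).trans (le_max_left _ _)
    have hm0 : (0 : ℝ) ≤ max (max K 0) (T₀ + 1) := (le_max_right _ _).trans (le_max_left _ _)
    have h4 : (k : ℝ) * (K * (x : ℝ) ^ (1 - δ)) ≤ k * (max (max K 0) (T₀ + 1) * (x : ℝ) ^ (1 - min δ 1)) :=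
      mul_le_mul_of_nonneg_left (mul_le_mul hm1 hp hp0 hm0) (Nat.cast_nonneg _)
    have h5 : ((T₀ : ℝ) + 1) ≤ max (max K 0) (T₀ + 1) * (x : ℝ) ^ (1 - min δ 1) := by
      have h6 : ((T₀ : ℝ) + 1) ≤ max (max K 0) (T₀ + 1) := le_max_right _ _
      nlinarith
    calc (({t | Exceptional C₀ φ₀ C φc Z lev 𝔦 t ∧ t ≤ x}.ncard : ℕ) : ℝ) ≤
          (({t | InLocus C 0 Z lev φ₀ 𝔦 t ∧ t ≤ x}.ncard : ℕ) : ℝ) + ((T₀ : ℝ) + 1) := h3
      _ ≤ k * (max (max K 0) (T₀ + 1) * (x : ℝ) ^ (1 - min δ 1)) + max (max K 0) (T₀ + 1) * (x : ℝ) ^ (1 - min δ 1) :=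
        add_le_add (hK'.trans h4) h5
      _ = (k + 1) * (max (max K 0) (T₀ + 1) * (x : ℝ) ^ (1 - min δ 1)) := by ring

end Pool.Agent.Results.MP_e2e4f5_ag.FromOneFibreToMost
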